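import Pool.Graph.R_pool_sql_team_seeded_2aa45f1a.Results.MP_05f553_nt.WeakAbcEquivalence

set_option autoImplicit false

/-! Philippon's inequality: one bad abc triple gives many exceptions. -/

namespace Pool.Agent.Helper86.Phil

open Pool.Agent.H78R2.Phil Pool.Agent.H78R2.Abc

/-- the height -/
noncomputable def H (r : ℚ) : ℝ := max |((r.num : ℤ) : ℝ)| ((r.den : ℕ) : ℝ)

/-- Philippon's inequality for one pair -/
def Ineq1 (B : ℕ) (α β ε : ℝ) (x y : ℚ) : Prop :=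
  -(∑ p ∈ (x * y ^ B + 1).num.natAbs.primeFactors,
      Real.log ((padicNorm p (x * y ^ B + 1) : ℚ) : ℝ))
    ≤ α * (B : ℝ) * Real.log (H x) + ε * (B : ℝ) * Real.log (H y)
      + (B : ℝ) * (α * (B : ℝ) + ε) *
          (β + ∑ p ∈ (x * y ^ B + 1).num.natAbs.primeFactors, Real.log (p : ℝ))

/-- the `y` of height at most `Y` which violate the inequality together with some `x` of height at
most `Y` -/
def Bad (B : ℕ) (α β ε Y : ℝ) : Set ℚ :=
  {y | y ≠ 0 ∧ H y ≤ Y ∧ ∃ x : ℚ, x ≠ 0 ∧ H x ≤ Y ∧ x * y ^ B ≠ 1 ∧ x * y ^ B ≠ -1 ∧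
    ¬ Ineq1 B α β ε x y}

theorem ht_eq (r : ℚ) : ht r = Real.log (H r) := rfl

theorem one_le_H (r : ℚ) : 1 ≤ H r := by
  have : (1 : ℝ) ≤ r.den := by exact_mod_cast r.pos
  exact this.trans (le_max_right _ _)

theorem H_eq_exp (r : ℚ) : H r = Real.exp (ht r) := by
  rw [ht_eq, Real.exp_log (lt_of_lt_of_le one_pos (one_le_H r))]

theorem finite_H (Y : ℝ) : {r : ℚ | H r ≤ Y}.Finite := by
  obtain ⟨N, hN⟩ := exists_nat_ge Y
  have h1 : Set.InjOn (fun r : ℚ => (r.num, r.den)) {r : ℚ | H r ≤ Y} := by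
    intro r _ s _ h
    simp only [Prod.mk.injEq] at h
    exact Rat.ext h.1 h.2
  refine Set.Finite.of_finite_image (((Set.finite_Icc (-(N : ℤ)) N).prod
    (Set.finite_Iic N)).subset ?_) h1
  rintro _ ⟨r, hr, rfl⟩
  have hr' : H r ≤ Y := hr
  have h2 : |((r.num : ℤ) : ℝ)| ≤ N := (le_max_left _ _).trans (hr'.trans hN)
  have h3 : ((r.den : ℕ) : ℝ) ≤ N := (le_max_right _ _).trans (hr'.trans hN)
  rw [abs_le] at h2
  refine ⟨?_, ?_⟩
  · rw [Set.mem_Icc]
    exact ⟨by exact_mod_cast h2.1, by exact_mod_cast h2.2⟩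
  · rw [Set.mem_Iic]
    exact_mod_cast h3

theorem bad_finite (B : ℕ) (α β ε Y : ℝ) : (Bad B α β ε Y).Finite :=
  (finite_H Y).subset fun _ hy => hy.2.1

/-- `ht (x y^B) ≤ ht x + B ht y` -/
theorem ht_mul_pow (x y : ℚ) (hx : x ≠ 0) (hy : y ≠ 0) (B : ℕ) :
    ht (x * y ^ B) ≤ ht x + B * ht y := by
  have h1 := num_dvd x y B
  have h2 := den_dvd x y B
  have hxn : 0 < x.num.natAbs := Int.natAbs_pos.2 (Rat.num_ne_zero.2 hx)
  have hyn : 0 < y.num.natAbs := Int.natAbs_pos.2 (Rat.num_ne_zero.2 hy)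
  have h3 := Nat.le_of_dvd (Nat.mul_pos hxn (pow_pos hyn _)) h1
  have h4 := Nat.le_of_dvd (Nat.mul_pos x.pos (pow_pos y.pos _)) h2
  have hHx := one_le_H x
  have hHy := one_le_H y
  have e1 : ∀ r : ℚ, ((r.num.natAbs : ℕ) : ℝ) ≤ H r := fun r => by
    rw [Nat.cast_natAbs]
    have : ((|r.num| : ℤ) : ℝ) = |((r.num : ℤ) : ℝ)| := by simp
    rw [this]
    exact le_max_left _ _
  have e2 : ∀ r : ℚ, ((r.den : ℕ) : ℝ) ≤ H r := fun r => le_max_right _ _
  have h5 : H (x * y ^ B) ≤ H x * H y ^ B := by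
    refine max_le ?_ ?_
    · have : |(((x * y ^ B).num : ℤ) : ℝ)| = (((x * y ^ B).num.natAbs : ℕ) : ℝ) := by
        rw [Nat.cast_natAbs]; simp
      rw [this]
      calc (((x * y ^ B).num.natAbs : ℕ) : ℝ) ≤ ((x.num.natAbs * y.num.natAbs ^ B : ℕ) : ℝ) := by
            exact_mod_cast h3
        _ = (x.num.natAbs : ℝ) * (y.num.natAbs : ℝ) ^ B := by push_cast; ring
        _ ≤ H x * H y ^ B := mul_le_mul (e1 x) (pow_le_pow_left₀ (by positivity) (e1 y) B)
            (by positivity) (by linarith)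
    · calc (((x * y ^ B).den : ℕ) : ℝ) ≤ ((x.den * y.den ^ B : ℕ) : ℝ) := by exact_mod_cast h4
        _ = (x.den : ℝ) * (y.den : ℝ) ^ B := by push_cast; ring
        _ ≤ H x * H y ^ B := mul_le_mul (e2 x) (pow_le_pow_left₀ (by positivity) (e2 y) B)
            (by positivity) (by linarith)
  rw [ht_eq, ht_eq, ht_eq, ← Real.log_pow, ← Real.log_mul (by linarith) (by positivity)]
  exact Real.log_le_log (lt_of_lt_of_le one_pos (one_le_H _)) h5

/-- coprime pairs -/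
def cop (n : ℕ) : Finset (ℕ × ℕ) :=
  (Finset.Icc 1 n ×ˢ Finset.Icc 1 n).filter fun p => Nat.Coprime p.1 p.2

theorem sum_inv_sq (n : ℕ) (hn : 2 ≤ n) :
    ∑ d ∈ Finset.Icc 2 n, (1 : ℝ) / (d : ℝ) ^ 2 ≤ 3 / 4 - 1 / n := by
  induction n, hn using Nat.le_induction with
  | base => norm_num
  | succ n hn ih =>
    rw [← Finset.insert_Icc_right_eq_Icc_add_one (by omega : 2 ≤ n + 1), Finset.sum_insert (by simp)]
    have hn0 : (2 : ℝ) ≤ n := by exact_mod_cast hn
    have h1 : (1 : ℝ) / ((n + 1 : ℕ) : ℝ) ^ 2 ≤ 1 / n - 1 / ((n + 1 : ℕ) : ℝ) := by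
      push_cast
      rw [div_sub_div _ _ (by linarith) (by linarith), div_le_div_iff₀ (by positivity) (by positivity)]
      nlinarith
    linarith

theorem cop_card (n : ℕ) : (n : ℝ) ^ 2 / 4 ≤ ((cop n).card : ℝ) := by
  classical
  rcases Nat.lt_or_ge n 2 with h | h
  · interval_cases n
    · simp [cop]
    · have : cop 1 = {(1, 1)} := by decide
      rw [this]
      norm_num
  have h1 : Finset.Icc 1 n ×ˢ Finset.Icc 1 n ⊆ cop n ∪ (Finset.Icc 2 n).biUnion fun d =>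
      ((Finset.Icc 1 (n / d)) ×ˢ (Finset.Icc 1 (n / d))).image fun p => (d * p.1, d * p.2) := by
    rintro ⟨u, v⟩ huv
    rw [Finset.mem_product, Finset.mem_Icc, Finset.mem_Icc] at huv
    obtain ⟨⟨hu1, hu2⟩, hv1, hv2⟩ := huv
    simp only at hu1 hu2 hv1 hv2
    rw [Finset.mem_union]
    by_cases hc : Nat.Coprime u v
    · left
      rw [cop, Finset.mem_filter, Finset.mem_product, Finset.mem_Icc, Finset.mem_Icc]
      exact ⟨⟨⟨hu1, hu2⟩, hv1, hv2⟩, hc⟩
    · right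
      rw [Finset.mem_biUnion]
      have hg : 0 < Nat.gcd u v := Nat.gcd_pos_of_pos_left _ hu1
      have hg1 : Nat.gcd u v ≠ 1 := hc
      have hgu : Nat.gcd u v ≤ u := Nat.le_of_dvd hu1 (Nat.gcd_dvd_left _ _)
      refine ⟨Nat.gcd u v, by rw [Finset.mem_Icc]; omega, ?_⟩
      rw [Finset.mem_image]
      refine ⟨(u / Nat.gcd u v, v / Nat.gcd u v), ?_, ?_⟩
      · rw [Finset.mem_product, Finset.mem_Icc, Finset.mem_Icc]
        refine ⟨⟨?_, Nat.div_le_div_right hu2⟩, ?_, Nat.div_le_div_right hv2⟩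
        · exact Nat.div_pos (Nat.le_of_dvd hu1 (Nat.gcd_dvd_left _ _)) hg
        · exact Nat.div_pos (Nat.le_of_dvd hv1 (Nat.gcd_dvd_right _ _)) hg
      · simp only [Prod.mk.injEq]
        exact ⟨Nat.mul_div_cancel' (Nat.gcd_dvd_left _ _), Nat.mul_div_cancel' (Nat.gcd_dvd_right _ _)⟩
  have h2 := Finset.card_le_card h1
  rw [Finset.card_product, Nat.card_Icc, Nat.add_sub_cancel] at h2
  have h3 := h2.trans ((Finset.card_union_le _ _).trans
    (Nat.add_le_add_left Finset.card_biUnion_le _))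
  have h4 : (∑ d ∈ Finset.Icc 2 n, ((((Finset.Icc 1 (n / d)) ×ˢ (Finset.Icc 1 (n / d))).image
      fun p : ℕ × ℕ => (d * p.1, d * p.2)).card : ℝ)) ≤ (3 / 4) * (n : ℝ) ^ 2 := by
    calc (∑ d ∈ Finset.Icc 2 n, ((((Finset.Icc 1 (n / d)) ×ˢ (Finset.Icc 1 (n / d))).image
          fun p : ℕ × ℕ => (d * p.1, d * p.2)).card : ℝ))
        ≤ ∑ d ∈ Finset.Icc 2 n, (n : ℝ) ^ 2 * (1 / (d : ℝ) ^ 2) := by
          refine Finset.sum_le_sum fun d hd => ?_
          rw [Finset.mem_Icc] at hd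
          have h5 : ((((Finset.Icc 1 (n / d)) ×ˢ (Finset.Icc 1 (n / d))).image
            fun p : ℕ × ℕ => (d * p.1, d * p.2)).card) ≤ (n / d) * (n / d) := by
            refine Finset.card_image_le.trans ?_
            rw [Finset.card_product, Nat.card_Icc, Nat.add_sub_cancel]
          have h6 : ((n / d : ℕ) : ℝ) ≤ (n : ℝ) / d := Nat.cast_div_le
          have h7 : (0 : ℝ) ≤ ((n / d : ℕ) : ℝ) := by positivity
          calc ((((Finset.Icc 1 (n / d)) ×ˢ (Finset.Icc 1 (n / d))).image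
                fun p : ℕ × ℕ => (d * p.1, d * p.2)).card : ℝ)
              ≤ ((n / d : ℕ) : ℝ) * ((n / d : ℕ) : ℝ) := by exact_mod_cast h5
            _ ≤ ((n : ℝ) / d) * ((n : ℝ) / d) := mul_le_mul h6 h6 h7 (h7.trans h6)
            _ = (n : ℝ) ^ 2 * (1 / (d : ℝ) ^ 2) := by
                have : (d : ℝ) ≠ 0 := by
                  have : (2 : ℝ) ≤ d := by exact_mod_cast hd.1
                  linarith
                field_simp
      _ = (n : ℝ) ^ 2 * ∑ d ∈ Finset.Icc 2 n, (1 : ℝ) / (d : ℝ) ^ 2 := by rw [Finset.mul_sum]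
      _ ≤ (n : ℝ) ^ 2 * (3 / 4) := by
          refine mul_le_mul_of_nonneg_left ?_ (by positivity)
          refine (sum_inv_sq n h).trans ?_
          have : (0 : ℝ) ≤ 1 / n := by positivity
          linarith
      _ = _ := by ring
  have h5 : ((n * n : ℕ) : ℝ) ≤ ((cop n).card : ℝ) + ∑ d ∈ Finset.Icc 2 n,
      ((((Finset.Icc 1 (n / d)) ×ˢ (Finset.Icc 1 (n / d))).image
      fun p : ℕ × ℕ => (d * p.1, d * p.2)).card : ℝ) := by
    exact_mod_cast h3
  push_cast at h5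
  nlinarith

end Pool.Agent.Helper86.Phil
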