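import Pool.Agent.Helper86.Phil.Core

set_option autoImplicit false

/-! Philippon's inequality: one bad abc triple gives many exceptions. -/

namespace Pool.Agent.Helper86.Phil

open Pool.Agent.H78R2.Phil Pool.Agent.H78R2.Abc

theorem lhs_fin {r : ℚ} (hr : r ≠ 0) :
    -(∑ p ∈ r.num.natAbs.primeFactors, Real.log ((padicNorm p r : ℚ) : ℝ)) =
      Real.log r.num.natAbs := by
  rw [← lhs_eq hr, S_eq hr, finsum_mem_coe_finset]

theorem rad_fin {r : ℚ} (hr : r ≠ 0) :
    ∑ p ∈ r.num.natAbs.primeFactors, Real.log (p : ℝ) = Real.log (rad r.num.natAbs) := by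
  rw [← rad_sum hr, S_eq hr, finsum_mem_coe_finset]

/-- the decomposition -/
theorem decomp {B : ℕ} (hB : 0 < B) {a b : ℕ} (ha : 0 < a) (hb : 0 < b) (hab : Nat.Coprime a b) :
    ∃ x y : ℚ, x ≠ 0 ∧ y ≠ 0 ∧ x * y ^ B = (a : ℚ) / b ∧
      ht x ≤ B * Real.log (rad (a * b * (a + b))) ∧ B * ht y ≤ Real.log ((a + b : ℕ) : ℝ) := by
  have hla := low_pos B a
  have hlb := low_pos B b
  have hha := high_pos B a
  have hhb := high_pos B b
  have hRn : 0 < rad (a * b * (a + b)) := rad_pos _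
  have hcopl : Nat.Coprime (low B a) (low B b) :=
    Nat.Coprime.coprime_dvd_left (Dvd.intro _ (low_mul_high ha.ne'))
      (Nat.Coprime.coprime_dvd_right (Dvd.intro _ (low_mul_high hb.ne')) hab)
  have hdva : high B a ∣ a := by
    conv_rhs => rw [← low_mul_high (B := B) ha.ne']
    exact dvd_mul_of_dvd_right (dvd_pow_self _ hB.ne') _
  have hdvb : high B b ∣ b := by
    conv_rhs => rw [← low_mul_high (B := B) hb.ne']
    exact dvd_mul_of_dvd_right (dvd_pow_self _ hB.ne') _
  have hcoph : Nat.Coprime (high B a) (high B b) :=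
    Nat.Coprime.coprime_dvd_left hdva (Nat.Coprime.coprime_dvd_right hdvb hab)
  have hrad_a : rad a ≤ rad (a * b * (a + b)) :=
    rad_le_of_dvd (Dvd.intro _ (by ring : a * (b * (a + b)) = _)) (by positivity)
  have hrad_b : rad b ≤ rad (a * b * (a + b)) :=
    rad_le_of_dvd (Dvd.intro _ (by ring : b * (a * (a + b)) = _)) (by positivity)
  refine ⟨(low B a : ℚ) / low B b, (high B a : ℚ) / high B b, by positivity, by positivity, ?_,
    ?_, ?_⟩
  · rw [div_pow, div_mul_div_comm]
    have e1 : (low B a : ℚ) * (high B a : ℚ) ^ B = a := by exact_mod_cast low_mul_high ha.ne'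
    have e2 : (low B b : ℚ) * (high B b : ℚ) ^ B = b := by exact_mod_cast low_mul_high hb.ne'
    rw [e1, e2]
  · rw [ht_div hlb hcopl, ← Real.log_pow]
    apply Real.log_le_log (by positivity)
    have e1 : low B a ≤ rad (a * b * (a + b)) ^ B :=
      (low_le hB).trans (Nat.pow_le_pow_left hrad_a _)
    have e2 : low B b ≤ rad (a * b * (a + b)) ^ B :=
      (low_le hB).trans (Nat.pow_le_pow_left hrad_b _)
    exact_mod_cast max_le e1 e2
  · rw [ht_div hhb hcoph, ← Real.log_pow]
    apply Real.log_le_log (by positivity)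
    have e1 : high B a ^ B ≤ a + b := by
      calc high B a ^ B ≤ low B a * high B a ^ B := Nat.le_mul_of_pos_left _ hla
        _ = a := low_mul_high ha.ne'
        _ ≤ a + b := by omega
    have e2 : high B b ^ B ≤ a + b := by
      calc high B b ^ B ≤ low B b * high B b ^ B := Nat.le_mul_of_pos_left _ hlb
        _ = b := low_mul_high hb.ne'
        _ ≤ a + b := by omega
    rcases max_choice (high B a : ℝ) (high B b : ℝ) with h' | h'
    · rw [h']; exact_mod_cast e1
    · rw [h']; exact_mod_cast e2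

theorem many {B : ℕ} (hB : 0 < B) {α β ε : ℝ} (hα : 1 ≤ α) (hβ : 0 ≤ β) (hε : 0 ≤ ε)
    {a b : ℕ} (ha : 0 < a) (hb : 0 < b) (hab : Nat.Coprime a b)
    (hne : a ≠ b) {n : ℕ} (hn1 : 1 ≤ n) {Y : ℝ}
    (hn : B * (α * B + ε) * (Real.log n + 2 * Real.log (rad (a * b * (a + b))) + β) <
      (1 - ε) * Real.log ((a + b : ℕ) : ℝ))
    (hY1 : B * (Real.log (rad (a * b * (a + b))) + Real.log n) ≤ Real.log Y)
    (hY2 : Real.log ((a + b : ℕ) : ℝ) / B + Real.log n ≤ Real.log Y) (hY : 0 < Y) :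
    (n : ℝ) ^ 2 / 4 ≤ ((Bad B α β ε Y).ncard : ℝ) := by
  classical
  obtain ⟨x, y, hx, hy, hxy, hhx, hhy⟩ := decomp hB ha hb hab
  set R := rad (a * b * (a + b)) with hR
  set ρ := Real.log (R : ℝ) with hρ
  set L := Real.log ((a + b : ℕ) : ℝ) with hL
  have hBR : (0 : ℝ) < B := by exact_mod_cast hB
  have hlogn : 0 ≤ Real.log (n : ℝ) := Real.log_natCast_nonneg n
  have hbQ : (b : ℚ) ≠ 0 := by exact_mod_cast hb.ne'
  have hrad_c : rad (a + b) ≤ R :=
    rad_le_of_dvd (Dvd.intro_left _ rfl) (by positivity)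
  -- the map
  let f : ℕ × ℕ → ℚ := fun p => y * ((p.2 : ℚ) / p.1)
  have hf : Set.InjOn f (cop n : Set (ℕ × ℕ)) := by
    rintro ⟨u, v⟩ h1 ⟨u', v'⟩ h2 h
    rw [Finset.mem_coe, cop, Finset.mem_filter, Finset.mem_product, Finset.mem_Icc,
      Finset.mem_Icc] at h1 h2
    simp only at h1 h2
    have h3 : ((v : ℚ) / u) = (v' : ℚ) / u' := mul_left_cancel₀ hy h
    have e1 := num_div (show 0 < u by omega) h1.2.symm
    have e2 := num_div (show 0 < u' by omega) h2.2.symm
    have e3 := den_div (show 0 < u by omega) h1.2.symm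
    have e4 := den_div (show 0 < u' by omega) h2.2.symm
    rw [h3] at e1 e3
    rw [e2] at e1
    rw [e4] at e3
    have e5 : v' = v := by exact_mod_cast e1
    rw [Prod.mk.injEq]
    exact ⟨e3.symm, e5.symm⟩
  have hmaps : ∀ p ∈ cop n, f p ∈ Bad B α β ε Y := by
    rintro ⟨u, v⟩ h1
    rw [cop, Finset.mem_filter, Finset.mem_product, Finset.mem_Icc, Finset.mem_Icc] at h1
    simp only at h1
    obtain ⟨⟨⟨hu1, hu2⟩, hv1, hv2⟩, hc⟩ := h1
    have huQ : (u : ℚ) ≠ 0 := by exact_mod_cast (show u ≠ 0 by omega)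
    have hvQ : (v : ℚ) ≠ 0 := by exact_mod_cast (show v ≠ 0 by omega)
    have huv0 : (u : ℚ) / v ≠ 0 := div_ne_zero huQ hvQ
    have hvu0 : (v : ℚ) / u ≠ 0 := div_ne_zero hvQ huQ
    have hlog : Real.log (max (u : ℝ) v) ≤ Real.log n := by
      apply Real.log_le_log
      · exact lt_max_of_lt_left (by exact_mod_cast (show 0 < u by omega))
      · exact max_le (by exact_mod_cast hu2) (by exact_mod_cast hv2)
    have t1 : ht ((u : ℚ) / v) ≤ Real.log n := by
      rw [ht_div (by omega) hc]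
      exact hlog
    have t2 : ht ((v : ℚ) / u) ≤ Real.log n := by
      rw [ht_div (by omega) hc.symm, max_comm]
      exact hlog
    have hX : ht (x * ((u : ℚ) / v) ^ B) ≤ B * ρ + B * Real.log n :=
      (ht_mul_pow x _ hx huv0 B).trans (add_le_add hhx (mul_le_mul_of_nonneg_left t1 hBR.le))
    have hYY : ht (y * ((v : ℚ) / u)) ≤ L / B + Real.log n := by
      have h2 := ht_mul_pow y ((v : ℚ) / u) hy hvu0 1
      rw [pow_one, Nat.cast_one, one_mul] at h2
      have h3 : ht y ≤ L / B := by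
        rw [le_div_iff₀ hBR]
        linarith
      linarith
    have hprod : (x * ((u : ℚ) / v) ^ B) * (y * ((v : ℚ) / u)) ^ B = (a : ℚ) / b := by
      rw [← hxy, mul_pow]
      have : ((u : ℚ) / v) ^ B * ((v : ℚ) / u) ^ B = 1 := by
        rw [← mul_pow, div_mul_div_comm, mul_comm (u : ℚ) v, div_self (mul_ne_zero hvQ huQ),
          one_pow]
      calc x * ((u : ℚ) / v) ^ B * (y ^ B * ((v : ℚ) / u) ^ B)
          = x * y ^ B * (((u : ℚ) / v) ^ B * ((v : ℚ) / u) ^ B) := by ring
        _ = _ := by rw [this, mul_one]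
    refine ⟨mul_ne_zero hy hvu0, ?_, x * ((u : ℚ) / v) ^ B, mul_ne_zero hx (pow_ne_zero _ huv0),
      ?_, ?_, ?_, ?_⟩
    · show H (y * ((v : ℚ) / u)) ≤ Y
      rw [H_eq_exp, ← Real.exp_log hY]
      exact Real.exp_le_exp.2 (hYY.trans hY2)
    · rw [H_eq_exp, ← Real.exp_log hY]
      exact Real.exp_le_exp.2 (hX.trans (by rw [← mul_add]; exact hY1))
    · show (x * ((u : ℚ) / v) ^ B) * (y * ((v : ℚ) / u)) ^ B ≠ 1
      rw [hprod]
      intro h1
      rw [div_eq_one_iff_eq hbQ] at h1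
      exact hne (by exact_mod_cast h1)
    · show (x * ((u : ℚ) / v) ^ B) * (y * ((v : ℚ) / u)) ^ B ≠ -1
      rw [hprod]
      intro h1
      have h2 : (0 : ℚ) < (a : ℚ) / b := by positivity
      rw [h1] at h2
      norm_num at h2
    · show ¬ Ineq1 B α β ε (x * ((u : ℚ) / v) ^ B) (y * ((v : ℚ) / u))
      unfold Ineq1
      rw [hprod]
      have hne0 : (a : ℚ) / b + 1 ≠ 0 := by positivity
      have hnum : ((a : ℚ) / b + 1).num.natAbs = a + b := by
        rw [num_add_one, num_div hb hab, den_div hb hab]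
        omega
      rw [lhs_fin hne0, rad_fin hne0, hnum, not_le, ← hL, ← ht_eq, ← ht_eq]
      have hα0 : 0 ≤ α := by linarith
      have hrad : Real.log (rad (a + b) : ℝ) ≤ ρ := by
        apply Real.log_le_log
        · exact_mod_cast rad_pos _
        · exact_mod_cast hrad_c
      have hρ0 : 0 ≤ ρ := Real.log_natCast_nonneg _
      have hL0 : 0 ≤ L := Real.log_natCast_nonneg _
      have i1 : α * B * ht (x * ((u : ℚ) / v) ^ B) ≤ α * B * (B * ρ + B * Real.log n) :=
        mul_le_mul_of_nonneg_left hX (by positivity)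
      have i2 : ε * B * ht (y * ((v : ℚ) / u)) ≤ ε * B * (L / B + Real.log n) :=
        mul_le_mul_of_nonneg_left hYY (by positivity)
      have i3 : (B : ℝ) * (α * B + ε) * (β + Real.log (rad (a + b) : ℝ)) ≤
          (B : ℝ) * (α * B + ε) * (β + ρ) :=
        mul_le_mul_of_nonneg_left (by linarith) (by positivity)
      have i4 : ε * B * (L / B + Real.log n) = ε * L + ε * B * Real.log n := by
        field_simp
      have i5 : 0 ≤ (B : ℝ) * ε * ρ := by positivity
      nlinarith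
  have h1 : ((cop n).image f : Set ℚ) ⊆ Bad B α β ε Y := by
    intro z hz
    rw [Finset.mem_coe, Finset.mem_image] at hz
    obtain ⟨p, hp, rfl⟩ := hz
    exact hmaps p hp
  have h2 := Set.ncard_le_ncard h1 (bad_finite B α β ε Y)
  rw [Set.ncard_coe_finset, Finset.card_image_of_injOn hf] at h2
  exact (cop_card n).trans (by exact_mod_cast h2)

end Pool.Agent.Helper86.Phil
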